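import Pool.Agent.Lib.MP_7157e1_co.X6

namespace Pool.Agent.Results.MP_7157e1_co.Cofinite

open Pool.Agent.Lib.MP_7157e1_co

/-- In every dimension `d ≥ 3`, every `k ≥ 2 (d - 1) ^ 3 + 6` is the number of combinatorial flag
orbits of some convex `d`-polytope. -/
theorem result (k d : ℕ) (hd : 3 ≤ d) (hk : 2 * (d - 1) ^ 3 + 6 ≤ k) : Attained k d :=
  attained_large hd hk

end Pool.Agent.Results.MP_7157e1_co.Cofinite
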