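import Pool.Agent.Lib.MP_7157e1_co.RFin
import Pool.Agent.Lib.Q7.Exist43

namespace Pool.Agent.Results.MP_7157e1_co.Cubic

open Pool.Agent.Lib.MP_7157e1_co

/-- For `d ≥ 9` and `k ≥ 2`, in the stated ranges, a convex `d`-polytope with exactly `k`
combinatorial flag orbits exists if and only if `k ≥ d - 2` and `k ≡ -1, 0, 1, 2` modulo
`d - 1`. -/
theorem result (k d : ℕ) (hd : 9 ≤ d) (hk : 2 ≤ k)
    (h : k ≤ d + 1 ∨ (83 ≤ d ∧ 2 * k + 23 * d + 79 ≤ d ^ 2) ∨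
      (110 ≤ d ∧ 2 * k < d * (d - 19)) ∨
      (110 ≤ d ∧ 15808 * (2 * k / (d * (d - 19))) < 2 * k % (d - 1) ∧
        2 * k % (d - 1) + 5596 * (2 * k / (d * (d - 19))) < d - 1)) :
    Attained k d ↔ d ≤ k + 2 ∧ (k + 1) % (d - 1) ≤ 3 := by
  constructor
  · intro ha
    have h1 : d ≤ k + 2 := (Pool.Agent.FlagOrb.lower ha hd).resolve_left (by omega)
    refine ⟨h1, ?_⟩
    rcases h with h | h | h | h
    · rw [show k + 1 = k + 2 - d + (d - 1) by omega, Nat.add_mod_right,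
        Nat.mod_eq_of_lt (by omega)]
      omega
    · exact Pool.Agent.FlagOrb.Q.half ha h.1 hk h.2
    · exact Pool.Agent.FlagOrb.R.cube ha h.1 hk (Or.inl h.2)
    · exact Pool.Agent.FlagOrb.R.cube ha h.1 hk (Or.inr h.2)
  · exact fun h => Pool.Agent.Lib.Q7.H43.exist (by omega) h.1 h.2

end Pool.Agent.Results.MP_7157e1_co.Cubic
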