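import Pool.Agent.Lib.Q7.Small43
import Pool.Agent.Lib.F77.EightB
import Pool.Agent.Lib.F77.EightE
import Pool.Agent.Lib.F77.EightF

namespace Pool.Agent.Results.MP_7157e1_co.UpToEight

open Pool.Agent.Lib.MP_7157e1_co

/-- The numbers of combinatorial flag orbits of convex polytopes of dimension at most eight, up to
four undecided values in dimension eight. -/
theorem result (k d : ℕ) (h8 : d ≤ 8) (h : d = 8 → k ≠ 11 ∧ k ≠ 18 ∧ k ≠ 25 ∧ k ≠ 39) :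
    Attained k d ↔ k = 1 ∨ (3 ≤ d ∧ 2 ≤ k ∧ (k = 2 → d = 3) ∧ (k = 4 → d ≠ 8)) := by
  refine ⟨Pool.Agent.FlagOrb.lowdim, ?_⟩
  rintro (rfl | ⟨h3, hk, h2, h4⟩)
  · exact Pool.Agent.Lib.Q7.H43.one d
  by_cases e : d = 8 ∧ k % 7 = 4
  · obtain ⟨rfl, e⟩ := e
    have := h rfl
    by_cases e2 : k = 32
    · exact e2 ▸ Pool.Agent.Lib.Q7.H77.att32
    · have := Pool.Agent.Lib.Q7.H77.att46 ((k - 46) / 7)
      rwa [show 46 + (k - 46) / 7 * 7 = k by omega] at this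
  · exact Pool.Agent.Lib.Q7.H43.small h3 h8 (by omega) h2 fun h1 h2 => absurd ⟨h1, h2⟩ e

end Pool.Agent.Results.MP_7157e1_co.UpToEight
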